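import Pool.Agent.MQG.StmtsB
import Pool.Agent.MQG.Legs3

/-!
# LPR: the product of a coefficient and a functional of `L^1`
-/

set_option autoImplicit false

namespace Pool.Agent.MQG.H64

open scoped InnerProductSpace InnerProduct Topology
open Complex Filter

variable {α β γ : Type}

/-- `⟪ζ, (1 ⊗ sl W v w) ζ'⟫ = ⟪ζ ⊗ v, W₂₃ (ζ' ⊗ w)⟫` -/
theorem inner_leg_sl (W : Op (β × γ)) (v w : L2 γ) (ζ ζ' : L2 (α × β)) :
    ⟪ζ, leg (Equiv.prodComm α β) (sl W v w) ζ'⟫_ℂ =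
      ⟪tl e12 ζ v, l23 W (tl e12 ζ' w)⟫_ℂ := by
  have hs : ∀ (a : L2 α) (b : L2 β), tn a b = tl (Equiv.prodComm α β) b a := by
    intro a b
    ext c
    simp [mul_comm]
  have key : leg (Equiv.prodComm α β) (sl W v w) =
      (emb e12 v)† ∘L (l23 W : Op (α × β × γ)) ∘L emb e12 w := by
    refine ext_inner_tn fun a b a' b' => ?_
    rw [ContinuousLinearMap.comp_apply, ContinuousLinearMap.adjoint_inner_right,
      ContinuousLinearMap.comp_apply, emb_apply, emb_apply, tl_e12, tl_e12, inner_l23,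
      hs a b, hs a' b', leg_tl, inner_tl, inner_sl]
  rw [key, ContinuousLinearMap.comp_apply, ContinuousLinearMap.adjoint_inner_right,
    ContinuousLinearMap.comp_apply, emb_apply, emb_apply]

/-- `⟪p ⊗ x ⊗ v, U₁₃ (q ⊗ ζ)⟫ = ⟪v, co U p q (x* ζ)⟫` -/
theorem inner_l13_co (U : Op (α × γ)) (p q : L2 α) (x : L2 β) (v : L2 γ) (ζ : L2 (β × γ)) :
    ⟪tn p (tn x v), l13 U (tn q ζ)⟫_ℂ =
      ⟪v, co U p q (((emb' (Equiv.refl (β × γ)) x)†) ζ)⟫_ℂ := by
  have key : (innerSL ℂ (tn p (tn x v)) ∘L (l13 U : Op (α × β × γ)) ∘L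
        emb' (Equiv.refl (α × β × γ)) q) =
      innerSL ℂ v ∘L co U p q ∘L (emb' (Equiv.refl (β × γ)) x)† := by
    refine ext_tn fun b c => ?_
    rw [ContinuousLinearMap.comp_apply, ContinuousLinearMap.comp_apply, innerSL_apply_apply,
      ContinuousLinearMap.comp_apply, ContinuousLinearMap.comp_apply, innerSL_apply_apply,
      emb'_apply, ← tn_eq, inner_l13, tn_eq b c, adj_emb'_tl, map_smul, inner_smul_right,
      inner_co, mul_comm]
  exact DFunLike.congr_fun key ζ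

theorem lpr : LprStmt := by
  intro ι W κ WW Λ hΛ κ' U hU p q x z ω ρ hω hρ
  refine ContinuousLinearMap.ext fun w => ext_inner_left ℂ fun v => ?_
  have hiso : ∀ s t : L2 (κ' × ι × ι), ⟪l12 U s, l12 U t⟫_ℂ = ⟪s, t⟫_ℂ := by
    intro s t
    have h1 : star (l12 U : Op (κ' × ι × ι)) * l12 U = 1 :=
      (Unitary.mem_iff.1 (leg_unitary _ hU.unit)).1
    have h2 : ⟪l12 U s, l12 U t⟫_ℂ =
        ⟪s, (star (l12 U : Op (κ' × ι × ι)) * (l12 U : Op (κ' × ι × ι)) : Op (κ' × ι × ι)) t⟫_ℂ := by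
      change _ = ⟪s, (star (l12 U : Op (κ' × ι × ι)) : Op (κ' × ι × ι)) (l12 U t)⟫_ℂ
      rw [ContinuousLinearMap.star_eq_adjoint, ContinuousLinearMap.adjoint_inner_right]
    rw [h2, h1]
    rfl
  have hlam : co W x z w = lam WW ω w := by
    refine ext_inner_left ℂ fun v' => ?_
    rw [inner_lam, hω, hΛ, inner_sl, inner_co]
  have hadj : l23 W (l12 U (tn q (tn z w))) = l12 U (l13 U (l23 W (tn q (tn z w)))) := by
    have h := DFunLike.congr_fun hU.eq (tn q (tn z w))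
    exact h.symm
  rw [inner_lam, hρ, hΛ, inner_leg_sl, ← l12_tn, ← l12_tn, hadj, hiso, l23_tn', inner_l13_co]
  change _ = ⟪v, co U p q (lam WW ω w)⟫_ℂ
  rw [← hlam]
  rfl

end Pool.Agent.MQG.H64
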