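import Pool.Agent.MQG.StmtsA

/-!
# TTB: transposition for `U^₁₂ Wt₂₃`
-/

set_option autoImplicit false

namespace Pool.Agent.MQG.H64

open scoped InnerProductSpace InnerProduct Topology ComplexConjugate
open Complex Filter

variable {α β γ ι : Type}

theorem adj_e12_tn (z : L2 α) (u : L2 γ) (η : L2 (β × γ)) :
    ((emb (e12 : α × β × γ ≃ _) u)†) (tn z η) =
      tn z (((emb (Equiv.refl (β × γ)) u)†) η) := by
  have h1 : ((emb (e12 : α × β × γ ≃ _) u)†) ∘L emb' (Equiv.refl (α × β × γ)) z =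
      emb' (Equiv.refl (α × β)) z ∘L ((emb (Equiv.refl (β × γ)) u)†) := by
    refine total_tn.ext ?_
    rintro _ ⟨a, c, rfl⟩
    rw [ContinuousLinearMap.comp_apply, ContinuousLinearMap.comp_apply, emb'_apply, ← tn_eq,
      ← tl_e12, adj_emb_tl, tn_eq a c, adj_emb_tl, map_smul, emb'_apply, ← tn_eq]
  exact DFunLike.congr_fun h1 η

/-- the bilinear map `(c, ζ) ↦ (emb (star c))† ζ` -/
noncomputable def sb : L2 β →L[ℂ] L2 (α × β) →L[ℂ] L2 α :=
  LinearMap.mkContinuous₂
    (LinearMap.mk₂ ℂ (fun (c : L2 β) (ζ : L2 (α × β)) =>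
        ((emb (Equiv.refl (α × β)) (star c))†) ζ)
      (fun c c' ζ => by
        rw [star_add, emb_add, map_add]
        rfl)
      (fun r c ζ => by
        rw [star_smul, emb_smul, map_smulₛₗ, RCLike.star_def (K := ℂ), conj_conj]
        rfl)
      (fun c ζ ζ' => map_add _ _ _)
      (fun r c ζ => map_smul _ _ _)) 1
    (fun c ζ => by
      rw [one_mul]
      refine (ContinuousLinearMap.le_opNorm _ _).trans ?_
      refine mul_le_mul_of_nonneg_right ?_ (norm_nonneg _)
      refine (norm_emb_adj_le _ _).trans ?_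
      rw [norm_star])

theorem sb_apply (c : L2 β) (ζ : L2 (α × β)) :
    sb c ζ = ((emb (Equiv.refl (α × β)) (star c))†) ζ := rfl

theorem adj_emb_tens {V : ℝ → Op ι} (hV : IsGroup V) (t : ℝ) (c : L2 ι) (ζ : L2 (ι × ι)) :
    ((emb (Equiv.refl (ι × ι)) (V t c))†) (tens (V t) (V t) ζ) =
      V t (((emb (Equiv.refl (ι × ι)) c)†) ζ) := by
  refine ext_inner_left ℂ fun h => ?_
  have hs : ∀ a b : L2 (ι × ι), ⟪a, tens (V t) (V t) b⟫_ℂ = ⟪tens (V (-t)) (V (-t)) a, b⟫_ℂ := by
    intro a b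
    rw [← hV.star_eq, ← tens_star, ContinuousLinearMap.star_eq_adjoint,
      ContinuousLinearMap.adjoint_inner_left]
  rw [inner_emb_adj, ← tn_eq, hs, tens_tn, hV.inner_right, inner_emb_adj, ← tn_eq,
    ← hV.apply_add, neg_add_cancel, hV.apply_zero]

/-- the trajectory used for the transposition -/
noncomputable def ww (M : MU ι) (f g k' : ℂ → L2 ι) (s : ℂ) : L2 ι :=
  sb (star (g (conj s - I / 2))) (star M.W (tn (k' s) (f (s + I / 2))))

theorem star_W_tens (M : MU ι) (t : ℝ) (ζ : L2 (ι × ι)) :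
    star M.W (tens (M.V t) (M.V t) ζ) = tens (M.V t) (M.V t) (star M.W ζ) := by
  have hu := Unitary.mem_iff.1 M.W_unitary
  have h1 : star M.W * tens (M.V t) (M.V t) = tens (M.V t) (M.V t) * star M.W := by
    calc star M.W * tens (M.V t) (M.V t)
        = star M.W * tens (M.V t) (M.V t) * (M.W * star M.W) := by rw [hu.2, mul_one]
      _ = star M.W * (tens (M.V t) (M.V t) * M.W) * star M.W := by simp only [mul_assoc]
      _ = star M.W * (M.W * tens (M.V t) (M.V t)) * star M.W := by rw [M.inv]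
      _ = (star M.W * M.W) * tens (M.V t) (M.V t) * star M.W := by simp only [mul_assoc]
      _ = tens (M.V t) (M.V t) * star M.W := by rw [hu.1, one_mul]
  exact DFunLike.congr_fun h1 ζ

theorem ww_traj (M : MU ι) {f g k' : ℂ → L2 ι} (hf : Traj M.V f) (hg : Traj M.V g)
    (hk : Traj M.V k') : Traj M.V (ww M f g k') := by
  have hV := M.V_group
  have hf1 := hf.shift hV (I / 2)
  have hg1 := hg.shift hV (-(I / 2))
  constructor
  · have h1 : Differentiable ℂ fun s : ℂ => star (g (conj s - I / 2)) := by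
      have h2 := hg1.cj.1
      simpa only [sub_eq_add_neg] using h2
    have h3 : Differentiable ℂ fun s : ℂ => star M.W (tn (k' s) (f (s + I / 2))) :=
      (star M.W).differentiable.comp (differentiable_tn hk.1 hf1.1)
    intro s
    exact ((sb (α := ι) (β := ι)).differentiableAt.comp s (h1 s)).clm_apply (h3 s)
  · intro t
    have e1 : g ((t : ℂ) - I / 2) = M.V t (g (-(I / 2))) := by
      rw [sub_eq_add_neg]
      exact hg.shift_real hV t _
    have e2 : f ((t : ℂ) + I / 2) = M.V t (f (I / 2)) := hf.shift_real hV t _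
    have e3 : k' (t : ℂ) = M.V t (k' 0) := hk.2 t
    rw [ww, ww, sb_apply, sb_apply, star_star, star_star, conj_ofReal, map_zero, zero_sub, zero_add,
      e1, e2, e3, ← tens_tn, star_W_tens, adj_emb_tens hV]

theorem ww_neg (M : MU ι) (f g k' : ℂ → L2 ι) : ww M f g k' (-(I / 2)) =
    ((emb (Equiv.refl (ι × ι)) (g 0))†) (star M.W (tn (k' (-(I / 2))) (f 0))) := by
  have e1 : conj (-(I / 2) : ℂ) - I / 2 = 0 := by
    rw [map_neg, map_div₀, conj_I, map_ofNat]
    ring
  rw [ww, sb_apply, star_star, e1, neg_add_cancel]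

theorem ww_zero (M : MU ι) {f g : ℂ → L2 ι} (hf : Traj M.V f) (hg : Traj M.V g) (k' : ℂ → L2 ι) :
    ((emb (Equiv.refl (ι × ι)) (f 0))†) (M.Wt (tn (star (k' 0)) (g 0))) =
      star (ww M f g k' 0) := by
  have hV := M.V_group
  refine ext_inner_left ℂ fun v => ?_
  rw [inner_emb_adj, ← tn_eq]
  have h1 := M.manageable (k' 0) (star v) _ _ (hf.shift hV (I / 2)) (hg.shift hV (-(I / 2)))
  simp only [zero_add, neg_add_cancel, add_neg_cancel, star_star] at h1
  have h3 : ⟪star v, ww M f g k' 0⟫_ℂ =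
      ⟪tn (star v) (g (-(I / 2))), star M.W (tn (k' 0) (f (I / 2)))⟫_ℂ := by
    rw [ww, sb_apply, star_star, map_zero, zero_sub, zero_add, inner_emb_adj, ← tn_eq]
  rw [← h1, inner_star_right v, ← inner_conj_symm (ww M f g k' 0) (star v), h3, inner_conj_symm,
    ContinuousLinearMap.star_eq_adjoint, ContinuousLinearMap.adjoint_inner_left]

theorem ttb : TtbStmt := by
  intro ι M κ U Uh hUh χ z k k' y hk hk'
  have hV := M.V_group
  -- the case of elementary tensors and trajectories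
  have main : ∀ (x : L2 κ) (f g : ℂ → L2 ι), Traj M.V f → Traj M.V g →
      ⟪tl e13 (tn x (f 0)) (star (k 0)), l12 Uh (l23 M.Wt (tn z (tn (star (k' 0)) (g 0))))⟫_ℂ =
        ⟪tl e13 (tn x (f 0)) (k' (-(I / 2))),
          l23 M.W (star (l12 U) (tn z (tn (k (I / 2)) (g 0))))⟫_ℂ := by
    intro x f g hf hg
    have hw := ww_traj M hf hg hk'
    have hl : ∀ (T : Op (κ × ι)) (a b : L2 (κ × ι × ι)),
        ⟪a, (l12 T : Op (κ × ι × ι)) b⟫_ℂ = ⟪(l12 (star T) : Op (κ × ι × ι)) a, b⟫_ℂ := by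
      intro T a b
      rw [l12_star, ContinuousLinearMap.star_eq_adjoint, ContinuousLinearMap.adjoint_inner_left]
    have hl2 : ∀ (T : Op (ι × ι)) (a b : L2 (κ × ι × ι)),
        ⟪a, (l23 T : Op (κ × ι × ι)) b⟫_ℂ = ⟪(l23 (star T) : Op (κ × ι × ι)) a, b⟫_ℂ := by
      intro T a b
      rw [l23_star, ContinuousLinearMap.star_eq_adjoint, ContinuousLinearMap.adjoint_inner_left]
    have left : ⟪tl e13 (tn x (f 0)) (star (k 0)),
        l12 Uh (l23 M.Wt (tn z (tn (star (k' 0)) (g 0))))⟫_ℂ =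
        ⟪tn x (ww M f g k' (-(I / 2))), star U (tn z (k (I / 2)))⟫_ℂ := by
      rw [tl_e13, l23_tn', hl, l12_tn, ← emb_apply, ← ContinuousLinearMap.adjoint_inner_right,
        adj_e12_tn, ww_zero M hf hg, ← hUh x z k _ hk hw, ContinuousLinearMap.star_eq_adjoint,
        ContinuousLinearMap.adjoint_inner_left]
    have right : ⟪tl e13 (tn x (f 0)) (k' (-(I / 2))),
          l23 M.W (star (l12 U) (tn z (tn (k (I / 2)) (g 0))))⟫_ℂ =
        ⟪tn x (ww M f g k' (-(I / 2))), star U (tn z (k (I / 2)))⟫_ℂ := by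
      rw [tl_e13, ← l12_star, hl2, l12_tn, l23_tn', ← emb_apply,
        ← ContinuousLinearMap.adjoint_inner_left, adj_e12_tn, ww_neg]
    rw [left, right]
  -- continuity
  have key : ((emb (e13 : κ × ι × ι ≃ _) (star (k 0)))†) ∘L (l12 Uh : Op (κ × ι × ι)) ∘L
        (l23 M.Wt : Op (κ × ι × ι)) ∘L emb' (Equiv.refl (κ × ι × ι)) z ∘L
        emb' (Equiv.refl (ι × ι)) (star (k' 0)) =
      ((emb (e13 : κ × ι × ι ≃ _) (k' (-(I / 2))))†) ∘L (l23 M.W : Op (κ × ι × ι)) ∘L
        (star (l12 U) : Op (κ × ι × ι)) ∘L emb' (Equiv.refl (κ × ι × ι)) z ∘L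
        emb' (Equiv.refl (ι × ι)) (k (I / 2)) := by
    refine Total.ext_op (total_traj hV 0) (Total.tn (total_univ (E := L2 κ)) (total_traj hV 0)) ?_
    rintro _ ⟨x, -, _, ⟨f, hf, rfl⟩, rfl⟩ _ ⟨g, hg, rfl⟩
    simp only [ContinuousLinearMap.comp_apply]
    rw [inner_emb_adj, inner_emb_adj]
    exact main x f g hf hg
  have h2 := congrArg (fun v => ⟪χ, v⟫_ℂ) (DFunLike.congr_fun key y)
  simp only [ContinuousLinearMap.comp_apply] at h2
  rw [inner_emb_adj, inner_emb_adj] at h2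
  exact h2

end Pool.Agent.MQG.H64
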